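import Pool.Agent.Run7.h691.ModP

namespace Run7.h691

open Finset

/-- The cube `[0, M)^4`. -/
noncomputable def cube (M : ℕ) : Finset (Fin 4 → ℤ) := Fintype.piFinset fun _ => Finset.Ico (0 : ℤ) M

lemma mem_box {M : ℕ} {x : Fin 4 → ℤ} : x ∈ cube M ↔ ∀ i, 0 ≤ x i ∧ x i < M := by
  simp [cube, Fintype.mem_piFinset]

/-- The squared length. -/
def nsq (x : Fin 4 → ℤ) : ℤ := x 0 ^ 2 + x 1 ^ 2 + x 2 ^ 2 + x 3 ^ 2

/-- Points of the cube with squared length divisible by `Q`. -/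
noncomputable def boxQ (M Q : ℕ) : Finset (Fin 4 → ℤ) := (cube M).filter fun x => (Q : ℤ) ∣ nsq x

lemma card_boxQ (L Q : ℕ) (hQ : 0 < Q) :
    L ^ 4 * Nat.card (Z4 Q) ≤ (boxQ (L * Q) Q).card := by
  classical
  have : NeZero Q := ⟨hQ.ne'⟩
  have h1 : L ^ 4 * Nat.card (Z4 Q) = Nat.card ((Fin 4 → Fin L) × Z4 Q) := by
    rw [Nat.card_prod]
    congr 1
    simp
  have h2 : (boxQ (L * Q) Q).card = Nat.card {x // x ∈ boxQ (L * Q) Q} := by
    simp
  rw [h1, h2]
  have hdvd : ∀ t : (Fin 4 → Fin L) × Z4 Q,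
      (fun i => (Q : ℤ) * ((t.1 i : ℕ) : ℤ) + ((t.2.1 i).val : ℤ)) ∈ boxQ (L * Q) Q := by
    intro t
    rw [boxQ, Finset.mem_filter, mem_box]
    refine ⟨fun i => ?_, ?_⟩
    · have ha : ((t.1 i : ℕ) : ℤ) + 1 ≤ L := by exact_mod_cast (t.1 i).2
      have hb : ((t.2.1 i).val : ℤ) < Q := by exact_mod_cast (ZMod.val_lt (t.2.1 i))
      have hQ' : (0 : ℤ) < Q := by exact_mod_cast hQ
      refine ⟨by positivity, ?_⟩
      push_cast
      nlinarith
    · rw [← ZMod.intCast_zmod_eq_zero_iff_dvd]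
      have h := t.2.2
      simp only [nsq]
      push_cast
      simpa using h
  refine Nat.card_le_card_of_injective (fun t => ⟨_, hdvd t⟩) ?_
  intro s t hst
  have h3 := Subtype.mk.inj hst
  have key : ∀ i, (s.1 i : ℕ) = (t.1 i : ℕ) ∧ (s.2.1 i).val = (t.2.1 i).val := by
    intro i
    have h4 : (Q : ℤ) * ((s.1 i : ℕ) : ℤ) + ((s.2.1 i).val : ℤ)
        = (Q : ℤ) * ((t.1 i : ℕ) : ℤ) + ((t.2.1 i).val : ℤ) := congrFun h3 i
    have h5 : Q * (s.1 i : ℕ) + (s.2.1 i).val = Q * (t.1 i : ℕ) + (t.2.1 i).val := by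
      exact_mod_cast h4
    have hs := ZMod.val_lt (s.2.1 i)
    have ht := ZMod.val_lt (t.2.1 i)
    have h6 : (s.1 i : ℕ) = (t.1 i : ℕ) := by
      have e1 : (Q * (s.1 i : ℕ) + (s.2.1 i).val) / Q = (s.1 i : ℕ) := by
        rw [Nat.mul_add_div hQ, Nat.div_eq_of_lt hs, add_zero]
      have e2 : (Q * (t.1 i : ℕ) + (t.2.1 i).val) / Q = (t.1 i : ℕ) := by
        rw [Nat.mul_add_div hQ, Nat.div_eq_of_lt ht, add_zero]
      rw [← e1, ← e2, h5]
    refine ⟨h6, ?_⟩
    rw [h6] at h5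
    omega
  refine Prod.ext ?_ ?_
  · funext i
    exact Fin.ext (key i).1
  · refine Subtype.ext (funext fun i => ?_)
    exact ZMod.val_injective Q (key i).2

/-- Some multiple `N` of `Q` below `4 (L Q)^2` has many representations. -/
lemma exists_many (L Q : ℕ) (hL : 0 < L) (hQ : 0 < Q) :
    ∃ N : ℕ, N < 4 * (L * Q) ^ 2 ∧
      (L : ℝ) ^ 2 * Nat.card (Z4 Q) / (4 * Q) ≤
        (((cube (L * Q)).filter fun x => nsq x = N).card : ℝ) := by
  classical
  set T := (Finset.range (4 * L ^ 2 * Q)) with hT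
  have hmap : ∀ x ∈ boxQ (L * Q) Q, ((nsq x).toNat / Q) ∈ T := by
    intro x hx
    rw [boxQ, Finset.mem_filter, mem_box] at hx
    rw [hT, Finset.mem_range, Nat.div_lt_iff_lt_mul hQ]
    have hn0 : 0 ≤ nsq x := by unfold nsq; positivity
    have hlt : nsq x < ((4 * L ^ 2 * Q * Q : ℕ) : ℤ) := by
      push_cast
      have hb : ∀ i, x i ^ 2 < (L * Q : ℤ) ^ 2 := by
        intro i
        have := hx.1 i
        push_cast at this
        exact pow_lt_pow_left₀ this.2 this.1 (by norm_num)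
      have := hb 0
      have := hb 1
      have := hb 2
      have := hb 3
      unfold nsq
      nlinarith
    omega
  have hne : T.Nonempty := by
    rw [hT, Finset.nonempty_range_iff]
    positivity
  have hcard := card_boxQ L Q hQ
  obtain ⟨y, hy, hle⟩ := Finset.exists_le_card_fiber_of_nsmul_le_card_of_maps_to (M := ℝ)
    (b := (L : ℝ) ^ 2 * Nat.card (Z4 Q) / (4 * Q)) hmap hne (by
      have hQ' : (0 : ℝ) < Q := by exact_mod_cast hQ
      rw [hT, Finset.card_range, nsmul_eq_mul]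
      have h1 : ((4 * L ^ 2 * Q : ℕ) : ℝ) * ((L : ℝ) ^ 2 * Nat.card (Z4 Q) / (4 * Q))
          = ((L ^ 4 * Nat.card (Z4 Q) : ℕ) : ℝ) := by
        push_cast
        field_simp
      rw [h1]
      exact_mod_cast hcard)
  refine ⟨Q * y, ?_, hle.trans ?_⟩
  · rw [hT, Finset.mem_range] at hy
    calc Q * y < Q * (4 * L ^ 2 * Q) := Nat.mul_lt_mul_of_pos_left hy hQ
      _ = 4 * (L * Q) ^ 2 := by ring
  · exact_mod_cast Finset.card_le_card (by
      intro x hx
      rw [Finset.mem_filter] at hx ⊢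
      obtain ⟨hx, hxy⟩ := hx
      rw [boxQ, Finset.mem_filter] at hx
      refine ⟨hx.1, ?_⟩
      have hn0 : 0 ≤ nsq x := by unfold nsq; positivity
      obtain ⟨k, hk⟩ := hx.2
      have hQ' : (0 : ℤ) < Q := by exact_mod_cast hQ
      have hk0 : 0 ≤ k := by
        by_contra hneg
        push Not at hneg
        nlinarith
      obtain ⟨k', rfl⟩ := Int.eq_ofNat_of_zero_le hk0
      have h2 : (nsq x).toNat = Q * k' := by
        rw [hk]
        exact_mod_cast Int.toNat_natCast (Q * k')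
      rw [h2, Nat.mul_div_cancel_left _ hQ] at hxy
      rw [hk, hxy]
      push_cast
      rfl)

end Run7.h691
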