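import Pool.Agent.Run7.h691.Box

namespace Run7.h691

open Finset

lemma prod_sq_ge (s : Finset ℕ) (y : ℕ) (hs : s ⊆ Finset.Ico 2 (y + 1)) :
    (1 / 2 : ℝ) ≤ ∏ p ∈ s, (1 - ((p : ℝ) ^ 2)⁻¹) := by
  classical
  have h01 : ∀ p ∈ Finset.Ico 2 (y + 1), 0 ≤ (1 - ((p : ℝ) ^ 2)⁻¹) ∧ (1 - ((p : ℝ) ^ 2)⁻¹) ≤ 1 := by
    intro p hp
    have hp2 : (2 : ℝ) ≤ p := by exact_mod_cast (Finset.mem_Ico.mp hp).1
    have h1 : (1 : ℝ) ≤ (p : ℝ) ^ 2 := by nlinarith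
    have h2 : ((p : ℝ) ^ 2)⁻¹ ≤ 1 := inv_le_one_of_one_le₀ h1
    have h3 : 0 ≤ ((p : ℝ) ^ 2)⁻¹ := by positivity
    constructor <;> linarith
  have hfull : ∀ y : ℕ, 1 ≤ y → ∏ p ∈ Finset.Ico 2 (y + 1), (1 - ((p : ℝ) ^ 2)⁻¹)
      = ((y : ℝ) + 1) / (2 * y) := by
    intro y hy
    induction y, hy using Nat.le_induction with
    | base => norm_num
    | succ n hn ih =>
      rw [Finset.prod_Ico_succ_top (by omega), ih]
      have hn' : (0 : ℝ) < n := by exact_mod_cast hn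
      push_cast
      field_simp
      ring
  rcases Nat.eq_zero_or_pos y with rfl | hy
  · have : s = ∅ := by
      apply Finset.subset_empty.mp
      simpa using hs
    subst this
    norm_num
  · have h4 := hfull y hy
    have h5 : (1 / 2 : ℝ) ≤ ((y : ℝ) + 1) / (2 * y) := by
      have hy' : (0 : ℝ) < y := by exact_mod_cast hy
      rw [div_le_div_iff₀ (by norm_num) (by positivity)]
      linarith
    rw [← h4, ← Finset.prod_sdiff hs] at h5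
    refine h5.trans ?_
    have h6 : ∏ p ∈ Finset.Ico 2 (y + 1) \ s, (1 - ((p : ℝ) ^ 2)⁻¹) ≤ 1 := by
      refine Finset.prod_le_one (fun i hi => (h01 i ?_).1) (fun i hi => (h01 i ?_).2)
      · exact (Finset.mem_sdiff.mp hi).1
      · exact (Finset.mem_sdiff.mp hi).1
    have h7 : 0 ≤ ∏ p ∈ s, (1 - ((p : ℝ) ^ 2)⁻¹) :=
      Finset.prod_nonneg fun i hi => (h01 i (hs hi)).1
    nlinarith

lemma mertens_lower (y : ℕ) :
    Real.log (y + 1) ≤ ∏ p ∈ (y + 1).primesBelow, (1 - (p : ℝ)⁻¹)⁻¹ := by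
  classical
  let f : ℕ →* ℝ :=
    { toFun := fun n => (n : ℝ)⁻¹
      map_one' := by simp
      map_mul' := fun a b => by push_cast; rw [mul_inv] }
  have hf : ∀ {p : ℕ}, p.Prime → ‖f p‖ < 1 := by
    intro p hp
    have h1 : (1 : ℝ) < p := by exact_mod_cast hp.one_lt
    change ‖((p : ℝ)⁻¹)‖ < 1
    rw [norm_inv, Real.norm_of_nonneg (by positivity)]
    exact inv_lt_one_of_one_lt₀ h1
  have h := (EulerProduct.summable_and_hasSum_smoothNumbers_prod_primesBelow_geometric hf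
    (y + 1)).2
  have h' : HasSum (Set.indicator ((y + 1).smoothNumbers) f)
      (∏ p ∈ (y + 1).primesBelow, (1 - f p)⁻¹) := by
    rw [← hasSum_subtype_iff_indicator]
    exact h
  have h2 : ∑ i ∈ Finset.Icc 1 y, Set.indicator ((y + 1).smoothNumbers) f i
      ≤ ∏ p ∈ (y + 1).primesBelow, (1 - f p)⁻¹ := by
    refine sum_le_hasSum _ (fun i _ => ?_) h'
    refine Set.indicator_nonneg (fun n _ => ?_) i
    change (0 : ℝ) ≤ (n : ℝ)⁻¹
    positivity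
  have h3 : ∑ i ∈ Finset.Icc 1 y, Set.indicator ((y + 1).smoothNumbers) f i
      = ∑ i ∈ Finset.Icc 1 y, (i : ℝ)⁻¹ := by
    refine Finset.sum_congr rfl fun i hi => ?_
    rw [Finset.mem_Icc] at hi
    rw [Set.indicator_of_mem (Nat.mem_smoothNumbers_of_lt (by omega) (by omega))]
    rfl
  rw [h3] at h2
  refine le_trans ?_ h2
  have h4 := log_add_one_le_harmonic y
  rw [harmonic_eq_sum_Icc] at h4
  push_cast at h4
  exact h4

/-- The odd primes up to `y`. -/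
def oddP (y : ℕ) : Finset ℕ := (y + 1).primesBelow.erase 2

lemma mem_oddP {y p : ℕ} (h : p ∈ oddP y) : p.Prime ∧ p ≠ 2 := by
  rw [oddP, Finset.mem_erase] at h
  exact ⟨Nat.prime_of_mem_primesBelow h.2, h.1⟩

lemma prod_lower (y : ℕ) (hy : 2 ≤ y) :
    (1 / 8) * Real.log (y + 1) ≤
      ∏ p ∈ oddP y, ((((p ^ 2 - 1) * p + p ^ 2 : ℕ) : ℝ) / (p : ℝ) ^ 3) := by
  classical
  have hterm : ∀ p ∈ oddP y, (1 - ((p : ℝ) ^ 2)⁻¹) ^ 2 * (1 - (p : ℝ)⁻¹)⁻¹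
      ≤ ((((p ^ 2 - 1) * p + p ^ 2 : ℕ) : ℝ) / (p : ℝ) ^ 3) := by
    intro p hp
    have hpp := (mem_oddP hp).1
    have h1 : (1 : ℝ) < p := by exact_mod_cast hpp.one_lt
    have h1' : 1 ≤ p ^ 2 := Nat.one_le_pow _ _ hpp.pos
    push_cast [Nat.cast_sub h1']
    have e1 : (1 - ((p : ℝ) ^ 2)⁻¹) = ((p : ℝ) ^ 2 - 1) / (p : ℝ) ^ 2 := by field_simp
    have e2 : (1 - (p : ℝ)⁻¹)⁻¹ = (p : ℝ) / ((p : ℝ) - 1) := by
      rw [← one_div, div_eq_div_iff]
      · field_simp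
      · have : (p : ℝ)⁻¹ < 1 := inv_lt_one_of_one_lt₀ h1
        linarith
      · linarith
    rw [e1, e2, div_pow, div_mul_div_comm, div_le_div_iff₀ (by
      have : 0 < (p : ℝ) - 1 := by linarith
      positivity) (by positivity)]
    have h2 : 0 ≤ (p : ℝ) - 1 := by linarith
    have h3 : (((p : ℝ) ^ 2 - 1) * p + (p : ℝ) ^ 2) * (((p : ℝ) ^ 2) ^ 2 * ((p : ℝ) - 1))
        - (((p : ℝ) ^ 2 - 1) ^ 2 * p) * (p : ℝ) ^ 3 = (p : ℝ) ^ 4 * ((p : ℝ) - 1) := by ring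
    have h4 : 0 ≤ (p : ℝ) ^ 4 * ((p : ℝ) - 1) := by positivity
    linarith
  refine le_trans ?_ (Finset.prod_le_prod (fun p hp => ?_) hterm)
  · rw [Finset.prod_mul_distrib, Finset.prod_pow]
    have hsub : oddP y ⊆ Finset.Ico 2 (y + 1) := by
      intro p hp
      rw [oddP, Finset.mem_erase] at hp
      rw [Finset.mem_Ico]
      exact ⟨(Nat.prime_of_mem_primesBelow hp.2).two_le, Nat.lt_of_mem_primesBelow hp.2⟩
    have hA := prod_sq_ge (oddP y) y hsub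
    have hB := mertens_lower y
    have h2mem : 2 ∈ (y + 1).primesBelow := by
      rw [Nat.mem_primesBelow]
      exact ⟨by omega, Nat.prime_two⟩
    have hC : ∏ p ∈ (y + 1).primesBelow, (1 - (p : ℝ)⁻¹)⁻¹
        = 2 * ∏ p ∈ oddP y, (1 - (p : ℝ)⁻¹)⁻¹ := by
      rw [oddP, ← Finset.mul_prod_erase _ _ h2mem]
      norm_num
    rw [hC] at hB
    set A := ∏ p ∈ oddP y, (1 - ((p : ℝ) ^ 2)⁻¹)
    set B := ∏ p ∈ oddP y, (1 - (p : ℝ)⁻¹)⁻¹
    have hlog : 0 ≤ Real.log ((y : ℝ) + 1) := Real.log_nonneg (by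
      have : (0 : ℝ) ≤ y := by positivity
      linarith)
    have hA2 : (1 / 4 : ℝ) ≤ A ^ 2 := by nlinarith
    nlinarith
  · have hpp := (mem_oddP hp).1
    have h1 : (1 : ℝ) < p := by exact_mod_cast hpp.one_lt
    have : (p : ℝ)⁻¹ < 1 := inv_lt_one_of_one_lt₀ h1
    have h2 : 0 < 1 - (p : ℝ)⁻¹ := by linarith
    positivity

lemma prod_oddP_le (y : ℕ) : ∏ p ∈ oddP y, p ≤ 4 ^ y := by
  refine le_trans ?_ (primorial_le_four_pow y)
  rw [primorial]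
  refine Finset.prod_le_prod_of_subset_of_one_le' ?_ ?_
  · intro p hp
    rw [oddP, Finset.mem_erase, Nat.mem_primesBelow] at hp
    rw [Finset.mem_filter, Finset.mem_range]
    exact hp.2
  · intro p hp _
    rw [Finset.mem_filter] at hp
    exact hp.2.one_le

lemma card_Z4_real (y : ℕ) (hy : 2 ≤ y) :
    (1 / 8) * Real.log (y + 1) * ((∏ p ∈ oddP y, p : ℕ) : ℝ) ^ 3
      ≤ (Nat.card (Z4 (∏ p ∈ oddP y, p)) : ℝ) := by
  have h1 := prod_lower y hy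
  have h2 : ((∏ p ∈ oddP y, ((p ^ 2 - 1) * p + p ^ 2) : ℕ) : ℝ)
      ≤ (Nat.card (Z4 (∏ p ∈ oddP y, p)) : ℝ) := by
    exact_mod_cast card_Z4_prod (oddP y) (fun p hp => mem_oddP hp)
  refine le_trans ?_ h2
  have hpos : 0 < ∏ p ∈ oddP y, ((p : ℝ) ^ 3) := Finset.prod_pos fun p hp => by
    have := (mem_oddP hp).1.pos
    positivity
  rw [Finset.prod_div_distrib, le_div_iff₀ hpos, Finset.prod_pow] at h1
  push_cast
  push_cast at h1
  exact h1

end Run7.h691
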