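import Mathlib

namespace Run7.h691

open Finset

/-- The zeros of the sum of four squares modulo `q`. -/
abbrev Z4 (q : ℕ) : Type := {v : Fin 4 → ZMod q // v 0 ^ 2 + v 1 ^ 2 + v 2 ^ 2 + v 3 ^ 2 = 0}

/-- From a `2 × 2` matrix `(A, B; C, D)` to a quadruple whose sum of squares is `AD - BC`. -/
def phi {F : Type*} [Field F] (a b : F) (M : Fin 4 → F) : Fin 4 → F :=
  ![(M 0 + M 3) / 2, (M 2 - M 1) / 2,
    -((M 0 - M 3) / 2 * a + (M 1 + M 2) / 2 * b), (M 0 - M 3) / 2 * b - (M 1 + M 2) / 2 * a]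

lemma phi_norm {F : Type*} [Field F] (h2 : (2 : F) ≠ 0) {a b : F} (hab : a ^ 2 + b ^ 2 = -1)
    (M : Fin 4 → F) :
    (phi a b M) 0 ^ 2 + (phi a b M) 1 ^ 2 + (phi a b M) 2 ^ 2 + (phi a b M) 3 ^ 2
      = M 0 * M 3 - M 1 * M 2 := by
  simp only [phi, Matrix.cons_val_zero, Matrix.cons_val_one, Matrix.cons_val]
  have : ((M 0 + M 3) / 2) ^ 2 + ((M 2 - M 1) / 2) ^ 2
      + (-((M 0 - M 3) / 2 * a + (M 1 + M 2) / 2 * b)) ^ 2
      + ((M 0 - M 3) / 2 * b - (M 1 + M 2) / 2 * a) ^ 2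
      = ((M 0 + M 3) / 2) ^ 2 + ((M 2 - M 1) / 2) ^ 2
        + (a ^ 2 + b ^ 2) * (((M 0 - M 3) / 2) ^ 2 + ((M 1 + M 2) / 2) ^ 2) := by ring
  rw [this, hab]
  field_simp
  ring

lemma phi_inj {F : Type*} [Field F] (h2 : (2 : F) ≠ 0) {a b : F} (hab : a ^ 2 + b ^ 2 = -1) :
    Function.Injective (phi a b : (Fin 4 → F) → (Fin 4 → F)) := by
  intro M N h
  have e0 := congrFun h 0
  have e1 := congrFun h 1
  have e2 := congrFun h 2
  have e3 := congrFun h 3
  simp only [phi, Matrix.cons_val_zero, Matrix.cons_val_one, Matrix.cons_val] at e0 e1 e2 e3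
  have h0 : M 0 + M 3 = N 0 + N 3 := by field_simp at e0; exact e0
  have h1 : M 2 - M 1 = N 2 - N 1 := by field_simp at e1; exact e1
  have h3 : (M 0 - M 3) / 2 = (N 0 - N 3) / 2 := by
    have : (a ^ 2 + b ^ 2) * ((M 0 - M 3) / 2) = (a ^ 2 + b ^ 2) * ((N 0 - N 3) / 2) := by
      linear_combination (-a) * e2 + b * e3
    rw [hab] at this
    linear_combination -this
  have h4 : (M 1 + M 2) / 2 = (N 1 + N 2) / 2 := by
    have : (a ^ 2 + b ^ 2) * ((M 1 + M 2) / 2) = (a ^ 2 + b ^ 2) * ((N 1 + N 2) / 2) := by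
      linear_combination (-b) * e2 - a * e3
    rw [hab] at this
    linear_combination -this
  have h3' : M 0 - M 3 = N 0 - N 3 := by field_simp at h3; exact h3
  have h4' : M 1 + M 2 = N 1 + N 2 := by field_simp at h4; exact h4
  have k0 : M 0 = N 0 := mul_left_cancel₀ h2 (by linear_combination h0 + h3')
  have k3 : M 3 = N 3 := mul_left_cancel₀ h2 (by linear_combination h0 - h3')
  have k1 : M 1 = N 1 := mul_left_cancel₀ h2 (by linear_combination h4' - h1)
  have k2 : M 2 = N 2 := mul_left_cancel₀ h2 (by linear_combination h4' + h1)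
  funext i
  fin_cases i <;> assumption

/-- A parametrisation of singular matrices. -/
def sing {F : Type*} [Field F] : ({v : F × F // v ≠ 0} × F) ⊕ (F × F) → (Fin 4 → F)
  | Sum.inl ⟨v, l⟩ => ![v.1.1, v.1.2, l * v.1.1, l * v.1.2]
  | Sum.inr w => ![0, 0, w.1, w.2]

lemma sing_inj {F : Type*} [Field F] : Function.Injective (sing (F := F)) := by
  rintro (⟨⟨⟨x, y⟩, hv⟩, l⟩ | ⟨x, y⟩) (⟨⟨⟨x', y'⟩, hv'⟩, l'⟩ | ⟨x', y'⟩) h
  · have e0 := congrFun h 0
    have e1 := congrFun h 1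
    have e2 := congrFun h 2
    have e3 := congrFun h 3
    simp only [sing, Matrix.cons_val_zero, Matrix.cons_val_one, Matrix.cons_val] at e0 e1 e2 e3
    subst e0 e1
    have : l = l' := by
      by_cases hx : x = 0
      · have hy : y ≠ 0 := by
          rintro rfl
          exact hv (by rw [hx]; rfl)
        exact mul_right_cancel₀ hy e3
      · exact mul_right_cancel₀ hx e2
    subst this
    rfl
  · have e0 := congrFun h 0
    have e1 := congrFun h 1
    simp only [sing, Matrix.cons_val_zero, Matrix.cons_val_one] at e0 e1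
    exact absurd (by rw [e0, e1]; rfl) hv
  · have e0 := congrFun h 0
    have e1 := congrFun h 1
    simp only [sing, Matrix.cons_val_zero, Matrix.cons_val_one] at e0 e1
    exact absurd (by rw [← e0, ← e1]; rfl) hv'
  · have e2 := congrFun h 2
    have e3 := congrFun h 3
    simp only [sing, Matrix.cons_val] at e2 e3
    subst e2 e3
    rfl

lemma sing_det {F : Type*} [Field F] (t : ({v : F × F // v ≠ 0} × F) ⊕ (F × F)) :
    sing t 0 * sing t 3 - sing t 1 * sing t 2 = 0 := by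
  rcases t with (⟨⟨⟨x, y⟩, hv⟩, l⟩ | ⟨x, y⟩)
  · simp only [sing, Matrix.cons_val_zero, Matrix.cons_val_one, Matrix.cons_val]; ring
  · simp only [sing, Matrix.cons_val_zero, Matrix.cons_val_one, Matrix.cons_val]; ring

lemma card_Z4_prime {p : ℕ} (hp : p.Prime) (h2 : p ≠ 2) :
    (p ^ 2 - 1) * p + p ^ 2 ≤ Nat.card (Z4 p) := by
  have : Fact p.Prime := ⟨hp⟩
  have h2' : (2 : ZMod p) ≠ 0 := by
    intro h
    have : (p : ℕ) ∣ 2 := (ZMod.natCast_eq_zero_iff 2 p).mp (by exact_mod_cast h)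
    have := (Nat.prime_dvd_prime_iff_eq hp Nat.prime_two).mp this
    exact h2 this
  obtain ⟨a, b, hab⟩ := ZMod.sq_add_sq p (-1)
  have hcard : Nat.card (({v : ZMod p × ZMod p // v ≠ 0} × ZMod p) ⊕ (ZMod p × ZMod p))
      = (p ^ 2 - 1) * p + p ^ 2 := by
    classical
    rw [Nat.card_sum, Nat.card_prod, Nat.card_prod, Nat.card_zmod]
    have : Nat.card {v : ZMod p × ZMod p // v ≠ 0} = p ^ 2 - 1 := by
      rw [Nat.card_eq_fintype_card, Fintype.card_subtype_compl, Fintype.card_prod, ZMod.card,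
        Fintype.card_subtype_eq, sq]
    rw [this, sq]
  rw [← hcard]
  refine Nat.card_le_card_of_injective (fun t => ⟨phi a b (sing t), ?_⟩) ?_
  · rw [phi_norm h2' hab, sing_det]
  · intro s t hst
    exact sing_inj (phi_inj h2' hab (Subtype.mk.inj hst))

lemma card_Z4_mul {q r : ℕ} (hq : 0 < q) (hr : 0 < r) (h : q.Coprime r) :
    Nat.card (Z4 q) * Nat.card (Z4 r) ≤ Nat.card (Z4 (q * r)) := by
  have : NeZero q := ⟨hq.ne'⟩
  have : NeZero r := ⟨hr.ne'⟩
  have : NeZero (q * r) := ⟨(Nat.mul_pos hq hr).ne'⟩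
  rw [← Nat.card_prod]
  let e := ZMod.chineseRemainder h
  refine Nat.card_le_card_of_injective
    (fun t => ⟨fun i => e.symm (t.1.1 i, t.2.1 i), ?_⟩) ?_
  · apply e.injective
    simp only [map_add, map_pow, RingEquiv.apply_symm_apply, map_zero]
    ext
    · simpa using t.1.2
    · simpa using t.2.2
  · intro s t hst
    have h1 := Subtype.mk.inj hst
    ext i
    · have := congrArg e (congrFun h1 i)
      simp only [RingEquiv.apply_symm_apply] at this
      exact congrArg Prod.fst this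
    · have := congrArg e (congrFun h1 i)
      simp only [RingEquiv.apply_symm_apply] at this
      exact congrArg Prod.snd this

lemma card_Z4_prod (s : Finset ℕ) (hs : ∀ p ∈ s, p.Prime ∧ p ≠ 2) :
    ∏ p ∈ s, ((p ^ 2 - 1) * p + p ^ 2) ≤ Nat.card (Z4 (∏ p ∈ s, p)) := by
  classical
  induction s using Finset.induction_on with
  | empty =>
    simp only [Finset.prod_empty]
    have h0 : Nonempty (Z4 1) := ⟨⟨fun _ => 0, by simp⟩⟩
    have h1 : NeZero (1 : ℕ) := ⟨one_ne_zero⟩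
    have h2 : Finite (Z4 1) := inferInstance
    exact Nat.one_le_iff_ne_zero.mpr (Nat.card_ne_zero.mpr ⟨h0, h2⟩)
  | insert p s hps ih =>
    rw [Finset.prod_insert hps, Finset.prod_insert hps]
    have hp := hs p (Finset.mem_insert_self _ _)
    have hs' : ∀ q ∈ s, q.Prime ∧ q ≠ 2 := fun q hq => hs q (Finset.mem_insert_of_mem hq)
    have hpos : 0 < ∏ p ∈ s, p := Finset.prod_pos fun q hq => (hs' q hq).1.pos
    refine le_trans (Nat.mul_le_mul (card_Z4_prime hp.1 hp.2) (ih hs')) ?_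
    refine card_Z4_mul hp.1.pos hpos ?_
    refine Nat.Coprime.prod_right fun q hq => ?_
    exact (Nat.coprime_primes hp.1 (hs' q hq).1).mpr (fun h => hps (h ▸ hq))

end Run7.h691
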