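import Pool.Agent.Run7.h691.Mert

namespace Run7.h691

open Finset

/-- Choice of the parameters. -/
lemma params : ∃ m₀ : ℕ, ∀ m : ℕ, m₀ ≤ m → ∃ L Q : ℕ, 0 < L ∧ 0 < Q ∧
    (m : ℝ) ≤ (L : ℝ) ^ 2 * Nat.card (Z4 Q) / (4 * Q) ∧
    ((L * Q : ℕ) : ℝ) ^ 2 ≤ 256 * m / Real.log (Real.log m) := by
  refine ⟨⌈Real.exp 36⌉₊, fun m hm => ?_⟩
  have hm1 : Real.exp 36 ≤ m := (Nat.le_ceil _).trans (by exact_mod_cast hm)
  have hmpos : (0 : ℝ) < m := (Real.exp_pos _).trans_le hm1
  set l := Real.log m with hl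
  have hl36 : (36 : ℝ) ≤ l := by
    rw [hl, Real.le_log_iff_exp_le hmpos]
    exact hm1
  have hexpl : Real.exp l = m := Real.exp_log hmpos
  have hll : 0 < Real.log l := Real.log_pos (by linarith)
  set y := ⌊l / 6⌋₊ with hy
  have hy1 : (y : ℝ) ≤ l / 6 := Nat.floor_le (by positivity)
  have hy2 : l / 6 < y + 1 := Nat.lt_floor_add_one _
  have hy3 : 2 ≤ y := by
    rw [hy, Nat.le_floor_iff (by positivity)]
    norm_num
    linarith
  set Q := ∏ p ∈ oddP y, p with hQ
  have hQpos : 0 < Q := Finset.prod_pos fun p hp => (mem_oddP hp).1.pos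
  have hQr : (0 : ℝ) < Q := by exact_mod_cast hQpos
  set W := (1 / 16) * Real.log l with hW
  have hWpos : 0 < W := by positivity
  have hWle : W ≤ (1 / 8) * Real.log (y + 1) := by
    have h1 : (1 / 2) * Real.log l ≤ Real.log (y + 1) := by
      have h2 : Real.log (l / 6) ≤ Real.log (y + 1) := Real.log_le_log (by positivity) hy2.le
      have h3 : (1 / 2) * Real.log l = Real.log (Real.sqrt l) := by
        rw [Real.log_sqrt (by linarith)]
        ring
      have h4 : Real.sqrt l ≤ l / 6 := by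
        rw [Real.sqrt_le_left (by positivity)]
        nlinarith
      rw [h3]
      exact (Real.log_le_log (Real.sqrt_pos.mpr (by linarith)) h4).trans h2
    rw [hW]
    linarith
  have hcard := card_Z4_real y hy3
  rw [← hQ] at hcard
  have hcard' : W * (Q : ℝ) ^ 3 ≤ (Nat.card (Z4 Q) : ℝ) :=
    (mul_le_mul_of_nonneg_right hWle (by positivity)).trans hcard
  set T := Real.sqrt (4 * m / W) with hT
  have hT2 : T ^ 2 = 4 * m / W := Real.sq_sqrt (by positivity)
  have hTpos : 0 < T := Real.sqrt_pos.mpr (by positivity)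
  have hQT : (Q : ℝ) ≤ T := by
    apply Real.le_sqrt_of_sq_le
    rw [le_div_iff₀ hWpos]
    -- `Q ≤ 4 ^ y ≤ exp (l / 4)`
    have h1 : (Q : ℝ) ≤ Real.exp (l / 4) := by
      have h2 : (Q : ℝ) ≤ (4 : ℝ) ^ y := by exact_mod_cast prod_oddP_le y
      have h3 : (4 : ℝ) ^ y = Real.exp (y * Real.log 4) := by
        rw [mul_comm, Real.exp_mul, Real.exp_log (by norm_num), Real.rpow_natCast]
      have h4 : Real.log 4 ≤ 3 / 2 := by
        have : Real.log 4 = 2 * Real.log 2 := by
          rw [show (4 : ℝ) = 2 ^ 2 by norm_num, Real.log_pow]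
          norm_num
        rw [this]
        have := Real.log_two_lt_d9
        linarith
      rw [h3] at h2
      refine h2.trans (Real.exp_le_exp.mpr ?_)
      have h5 : 0 ≤ Real.log 4 := Real.log_nonneg (by norm_num)
      calc (y : ℝ) * Real.log 4 ≤ (l / 6) * (3 / 2) := by
            apply mul_le_mul hy1 h4 h5 (by positivity)
        _ = l / 4 := by ring
    have h6 : (Q : ℝ) ^ 2 ≤ Real.exp (l / 2) := by
      have : Real.exp (l / 2) = Real.exp (l / 4) ^ 2 := by
        rw [← Real.exp_nat_mul]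
        congr 1
        push_cast
        ring
      rw [this]
      exact pow_le_pow_left₀ hQr.le h1 2
    have h7 : W ≤ 4 * Real.exp (l / 2) := by
      have h8 : Real.log l ≤ l - 1 := Real.log_le_sub_one_of_pos (by linarith)
      have h9 : l / 2 + 1 ≤ Real.exp (l / 2) := Real.add_one_le_exp _
      rw [hW]
      linarith
    have h10 : (m : ℝ) = Real.exp (l / 2) * Real.exp (l / 2) := by
      rw [← Real.exp_add, add_halves, hexpl]
    rw [h10]
    have h11 := Real.exp_pos (l / 2)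
    nlinarith
  set L := ⌈T / Q⌉₊ with hL
  have hL1 : T / Q ≤ L := Nat.le_ceil _
  have hL2 : (L : ℝ) < T / Q + 1 := Nat.ceil_lt_add_one (by positivity)
  have hLpos : 0 < L := Nat.ceil_pos.mpr (by positivity)
  have hLQ1 : T ≤ L * Q := by
    rw [div_le_iff₀ hQr] at hL1
    exact hL1
  have hLQ2 : (L : ℝ) * Q ≤ 2 * T := by
    have : (L : ℝ) * Q ≤ (T / Q + 1) * Q := mul_le_mul_of_nonneg_right hL2.le hQr.le
    have h2 : (T / Q + 1) * Q = T + Q := by field_simp
    linarith
  refine ⟨L, Q, hLpos, hQpos, ?_, ?_⟩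
  · rw [le_div_iff₀ (by positivity)]
    have h1 : (m : ℝ) * (4 * Q) = T ^ 2 * W * Q := by
      rw [hT2]
      field_simp
    rw [h1]
    have h2 : T ^ 2 ≤ ((L : ℝ) * Q) ^ 2 := pow_le_pow_left₀ hTpos.le hLQ1 2
    calc T ^ 2 * W * Q ≤ ((L : ℝ) * Q) ^ 2 * W * Q := by gcongr
      _ = (L : ℝ) ^ 2 * (W * (Q : ℝ) ^ 3) := by ring
      _ ≤ _ := by gcongr
  · push_cast
    have h1 : ((L : ℝ) * Q) ^ 2 ≤ (2 * T) ^ 2 := pow_le_pow_left₀ (by positivity) hLQ2 2
    refine h1.trans ?_
    rw [mul_pow, hT2, hW]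
    apply le_of_eq
    field_simp
    norm_num

end Run7.h691
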